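import Mathlib

/-!
# Correspondences on varieties over algebraic closures of finite fields

The data of `Pool.Agent.Q60.GR.Defs` and `Pool.Agent.Q60.GR.Curve`, arranged in small definitions.
-/

set_option autoImplicit false

namespace Pool.Agent.Q60.GS

open Module

noncomputable section

/-- The cohomology of a smooth projective variety of dimension `n`, with the Künneth projections. -/
structure Coh (n : ℕ) where
  /-- the sum of the `ℓ`-adic cohomology groups, regarded as a complex vector space by an isomorphism
  between an algebraic closure of `ℚ_ℓ` and `ℂ` -/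
  V : Type
  [grp : AddCommGroup V]
  [mod : Module ℂ V]
  [fin : FiniteDimensional ℂ V]
  /-- the projection `e k` of the cohomology to the part of degree `k` -/
  e : ℕ → Module.End ℂ V
  e_mul : ∀ k l, e k * e l = if k = l then e k else 0
  e_sum : ∑ k ∈ Finset.range (2 * n + 1), e k = 1

attribute [instance] Coh.grp Coh.mod Coh.fin

namespace Coh

variable {n : ℕ} (H : Coh n)

/-- The operators on the cohomology. -/
def Op : Type := Module.End ℂ H.V

instance : Ring H.Op := (inferInstance : Ring (Module.End ℂ H.V))

instance : Module ℂ H.Op := (inferInstance : Module ℂ (Module.End ℂ H.V))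

/-- The projection to the cohomology group of degree `k`. -/
def pr (k : ℕ) : H.Op := H.e k

/-- The trace. -/
def tr (x : H.Op) : ℂ := LinearMap.trace ℂ H.V x

/-- The alternating sum of the traces of `x * y` on the cohomology groups. -/
def inter (x y : H.Op) : ℂ := ∑ k ∈ Finset.range (2 * n + 1), (-1) ^ k * H.tr (H.pr k * (x * y))

/-- The eigenvalues of `x` on the cohomology group of degree `k` have the absolute value
`q ^ (k / 2)`. -/
def Pure (x : Module.End ℂ H.V) (q k : ℕ) : Prop :=
  ∀ (α : ℂ) (v : H.V), v ≠ 0 → H.e k v = v → x v = α • v → ‖α‖ ^ 2 = (q : ℝ) ^ k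

end Coh

/-- The algebraic correspondences of degree zero on a smooth projective variety `X` with the cohomology
`H`. A correspondence `x` (a cycle of codimension `n` on `X × X` with rational coefficients) is
identified with its action `x^* a = p_{1*} (x · p_2^* a)`, so that `x^* y^*` is the action of the
composition `y ∘ x = p_{13*} (p_12^* x · p_23^* y)`. -/
structure Cycles {n : ℕ} (H : Coh n) where
  /-- the ring of the algebraic correspondences of degree zero -/
  A : Subring H.Op
  smul_mem : ∀ (a : ℚ) (x : H.Op), x ∈ A → (a : ℂ) • x ∈ A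
  comm : ∀ k, ∀ x ∈ A, H.pr k * x = x * H.pr k
  /-- the Künneth components of the diagonal are algebraic -/
  pr_mem : ∀ k, H.pr k ∈ A
  /-- the trace formula: `inter x y` is the intersection number of `x` and the transpose of `y`, a
  rational number -/
  rat : ∀ x ∈ A, ∀ y ∈ A, ∃ a : ℚ, H.inter x y = a

/-- The Frobenius endomorphism, if `X` is defined over the field with `q` elements. -/
structure Frobenius {n : ℕ} {H : Coh n} (Z : Cycles H) (q : ℕ) where
  /-- the graph of the Frobenius endomorphism -/
  F : H.Op
  F_mem : F ∈ Z.A
  /-- the transpose of `F` -/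
  F' : H.Op
  F'_mem : F' ∈ Z.A
  F_F' : F * F' = (q : ℂ) ^ n • 1
  /-- each cycle is defined over a finite extension of the field with `q` elements -/
  defined : ∀ x ∈ Z.A, ∃ s : ℕ, 0 < s ∧ F ^ s * x = x * F ^ s
  /-- the theorem of Deligne -/
  pure : ∀ k, H.Pure F q k

/-- Effective cycles and ample divisors `h`, `h'` on `X` which are defined over the field with `q`
elements. -/
structure Effective {n q : ℕ} {H : Coh n} {Z : Cycles H} (Φ : Frobenius Z q) where
  /-- the classes of the effective cycles of codimension `n` on `X × X` -/
  Eff : Set H.Op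
  eff_mem : ∀ f ∈ Eff, f ∈ Z.A
  /-- the composition of an effective cycle with the graph of the Frobenius endomorphism is effective -/
  eff_F : ∀ f ∈ Eff, f * Φ.F ∈ Eff
  /-- the composition of an effective cycle with the transpose of the graph is effective -/
  eff_F' : ∀ f ∈ Eff, f * Φ.F' ∈ Eff
  /-- `c j` is the class of the transpose of `p_1^* h ^ (n - j) · p_2^* h' ^ j`, that is, the operator
  which maps `a` to `deg (a · h ^ (n - j)) h' ^ j` -/
  c : ℕ → H.Op
  c_mem : ∀ j, c j ∈ Z.A
  c_deg : ∀ j, H.pr (2 * j) * c j = c j
  /-- the Frobenius endomorphism multiplies `h'` by `q` -/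
  F_c : ∀ j, Φ.F * c j = (q : ℂ) ^ j • c j
  /-- intersection numbers of effective cycles with `p_1^* h ^ (n - j) · p_2^* h' ^ j` -/
  eff_nonneg : ∀ f ∈ Eff, ∀ j ≤ n, 0 ≤ (H.inter f (c j)).re
  /-- intersection numbers of effective cycles `f` with a given cycle are bounded by a multiple of the
  intersection number of `f` with `(p_1^* h + p_2^* h') ^ n` -/
  eff_bounded : ∀ z ∈ Z.A, ∃ C : ℝ, ∀ f ∈ Eff,
    ‖H.inter f z‖ ≤ C * (H.inter f (∑ j ∈ Finset.range (n + 1), (n.choose j : ℂ) • c j)).re

/-- The cohomology and the correspondences of a smooth projective variety `X` of dimension `n` over an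
algebraic closure of a finite field, defined over the field with `q` elements, with ample divisors
`h`, `h'` on `X` defined over the same field. -/
structure Variety (n q : ℕ) where
  /-- the cohomology -/
  H : Coh n
  /-- the algebraic correspondences -/
  Z : Cycles H
  /-- the Frobenius endomorphism -/
  Φ : Frobenius Z q
  /-- the effective cycles and the ample divisors -/
  E : Effective Φ

namespace Variety

variable {n q : ℕ} (X : Variety n q)

/-- The operators on the cohomology of `X`. -/
abbrev Op : Type := X.H.Op

/-- The algebraic correspondences. -/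
def Cyc : Type := X.Z.A

/-- The functions on the set of the algebraic correspondences. -/
def Fn : Type := X.Cyc → ℂ

instance : AddCommGroup X.Fn := (inferInstance : AddCommGroup (X.Cyc → ℂ))

instance : Module ℝ X.Fn := (inferInstance : Module ℝ (X.Cyc → ℂ))

/-- The function of the intersection numbers of `f` with the (transposes of the) cycles `z`. -/
def num (f : X.Cyc) : X.Fn := fun z => X.H.inter f.1 z.1

/-- The real vector space of the correspondences modulo numerical equivalence, `N^n (X × X)_ℝ`: the
span of the functions `num f`. -/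
def span : Submodule ℝ X.Fn := Submodule.span ℝ (Set.range X.num)

/-- The real vector space of the correspondences modulo numerical equivalence, `N^n (X × X)_ℝ`. -/
def N : Type := X.span

instance : AddCommGroup X.N := (inferInstance : AddCommGroup X.span)

instance : Module ℝ X.N := (inferInstance : Module ℝ X.span)

/-- The class of a correspondence modulo numerical equivalence. -/
def cls (f : X.Cyc) : X.N := ⟨X.num f, Submodule.subset_span ⟨f, rfl⟩⟩

/-- The degree, the intersection number with `(p_1^* h + p_2^* h') ^ n`. -/
def deg (f : X.Cyc) : ℝ :=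
  (X.H.inter f.1 (∑ j ∈ Finset.range (n + 1), (n.choose j : ℂ) • X.E.c j)).re

/-- The operator `G r`, multiplication by `r ^ k` on the cohomology group of degree `k`. -/
def G (r : ℚ) : X.Op := ∑ k ∈ Finset.range (2 * n + 1), ((r : ℂ) ^ k) • X.H.pr k

theorem G_mem (r : ℚ) : X.G r ∈ X.Z.A := by
  refine Subring.sum_mem _ fun k _ => ?_
  have h := X.Z.smul_mem (r ^ k) _ (X.Z.pr_mem k)
  rwa [Rat.cast_pow] at h

/-- The effective cycles. -/
def Eff : Type := X.E.Eff

/-- The composition `G_r ∘ f` of the effective cycle `f` and `G_r`; it acts as `f^* (G_r)^*`. -/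
def comp (r : ℚ) (f : X.Eff) : X.Cyc :=
  ⟨f.1 * X.G r, X.Z.A.mul_mem (X.E.eff_mem _ f.2) (X.G_mem r)⟩

/-- The norm of `G_r ∘ f` is at most `C` times its degree, for all rational `r > 0` and all effective
cycles `f`. -/
def Bounded (ν : Seminorm ℝ X.N) (C : ℝ) : Prop :=
  ∀ r : ℚ, 0 < r → ∀ f : X.Eff, ν (X.cls (X.comp r f)) ≤ C * X.deg (X.comp r f)

end Variety

/-- A rational vector space with a bilinear form. -/
structure Form where
  /-- the vector space -/
  NS : Type
  [grp : AddCommGroup NS]
  [mod : Module ℚ NS]
  /-- the form -/
  B : LinearMap.BilinForm ℚ NS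

attribute [instance] Form.grp Form.mod

/-- The value of the form. -/
def Form.dot (P : Form) (x y : P.NS) : ℚ := P.B x y

/-- The classes `f₁`, `f₂`, `Δ` of the fibres of the two projections and of the diagonal of `X × X`,
where `X` is a curve of genus `g`, and their intersection numbers. -/
structure Basic (P : Form) (g : ℕ) where
  symm : ∀ x y, P.dot x y = P.dot y x
  /-- the class of a fibre of the first projection -/
  f₁ : P.NS
  /-- the class of a fibre of the second projection -/
  f₂ : P.NS
  /-- the class of the diagonal -/
  Δ : P.NS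
  f₁_f₁ : P.dot f₁ f₁ = 0
  f₂_f₂ : P.dot f₂ f₂ = 0
  f₁_f₂ : P.dot f₁ f₂ = 1
  Δ_f₁ : P.dot Δ f₁ = 1
  Δ_f₂ : P.dot Δ f₂ = 1
  Δ_Δ : P.dot Δ Δ = 2 - 2 * g
  /-- the Hodge index theorem -/
  index : ∀ z, P.dot z f₁ = 0 → P.dot z f₂ = 0 → P.dot z z ≤ 0

/-- The classes of the irreducible curves on `X × X`. -/
structure Curves (P : Form) (g : ℕ) (Q : Basic P g) where
  /-- the classes of the irreducible curves on `X × X` -/
  Irr : Set P.NS
  /-- the degrees of an irreducible curve over the two factors -/
  degrees : ∀ C ∈ Irr, ∃ x y : ℕ, P.dot C Q.f₁ = x ∧ P.dot C Q.f₂ = y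
  /-- an irreducible curve which does not dominate the first factor is a fibre -/
  fibre₁ : ∀ C ∈ Irr, P.dot C Q.f₁ = 0 → C = Q.f₁
  /-- an irreducible curve which does not dominate the second factor is a fibre -/
  fibre₂ : ∀ C ∈ Irr, P.dot C Q.f₂ = 0 → C = Q.f₂
  /-- the arithmetic genus of an irreducible curve which dominates both factors is at least `g`; the
  canonical class of `X × X` is `(2 g - 2) (f₁ + f₂)` -/
  adjunction : ∀ C ∈ Irr, P.dot C Q.f₁ ≠ 0 → P.dot C Q.f₂ ≠ 0 →
    2 * (g : ℚ) - 2 ≤ P.dot C C + (2 * g - 2) * (P.dot C Q.f₁ + P.dot C Q.f₂)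

/-- The numerical classes of divisors with rational coefficients on the surface `X × X`, where `X` is a
smooth projective curve of genus `g` over an algebraically closed field, with the intersection
form. -/
structure CurveSq (g : ℕ) where
  /-- the numerical classes of divisors and the intersection form -/
  P : Form
  /-- the fibres and the diagonal -/
  Q : Basic P g
  /-- the irreducible curves -/
  R : Curves P g Q

namespace CurveSq

variable {g : ℕ} (X : CurveSq g)

/-- Ample classes (criterion of Nakai and Moishezon). -/
def IsAmple (D : X.P.NS) : Prop := 0 < X.P.dot D D ∧ ∀ C ∈ X.R.Irr, 0 < X.P.dot D C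

/-- The class of `G r`: multiplication by `r ^ k` on the cohomology of degree `k` of `X`. -/
def G (r : ℚ) : X.P.NS := X.Q.f₂ + r ^ 2 • X.Q.f₁ + r • (X.Q.Δ - X.Q.f₁ - X.Q.f₂)

end CurveSq

end

end Pool.Agent.Q60.GS
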