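import Mathlib
import Pool.Agent.Q60.GS.Defs
import Pool.Agent.Q60.GR.Final
import Pool.Agent.Q60.GR.Curve

/-!
# The comparison with the data of `Pool.Agent.Q60.GR`
-/

set_option autoImplicit false

namespace Pool.Agent.Q60.GS

open Module

noncomputable section

/-- The data of `Pool.Agent.Q60.GR.Defs`. -/
def Variety.old {n q : ℕ} (X : Variety n q) : GR.Corr n q where
  V := X.H.V
  grp := X.H.grp
  mod := X.H.mod
  fin := X.H.fin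
  e := X.H.e
  e_mul := X.H.e_mul
  e_sum := X.H.e_sum
  A := X.Z.A
  smul_mem := X.Z.smul_mem
  comm := X.Z.comm
  e_mem := X.Z.pr_mem
  rat := X.Z.rat
  F := X.Φ.F
  F_mem := X.Φ.F_mem
  F' := X.Φ.F'
  F'_mem := X.Φ.F'_mem
  F_F' := X.Φ.F_F'
  defined := X.Φ.defined
  weight := X.Φ.pure
  Eff := X.E.Eff
  eff_mem := X.E.eff_mem
  eff_F := X.E.eff_F
  eff_F' := X.E.eff_F'
  c := X.E.c
  c_mem := X.E.c_mem
  c_deg := X.E.c_deg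
  F_c := X.E.F_c
  eff_nonneg := X.E.eff_nonneg
  eff_bounded := X.E.eff_bounded

theorem Variety.bounded {n q : ℕ} (X : Variety n q) (hq : 1 < q) (ν : Seminorm ℝ X.N) :
    ∃ C : ℝ, 0 < C ∧ X.Bounded ν C := by
  obtain ⟨C, hC, h⟩ := X.old.final hq ν
  exact ⟨C, hC, fun r hr f => h r hr f.1 f.2⟩

/-- The data of `Pool.Agent.Q60.GR.Curve`. -/
def CurveSq.old {g : ℕ} (X : CurveSq g) : GR.CurveSq g where
  NS := X.P.NS
  grp := X.P.grp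
  mod := X.P.mod
  B := X.P.B
  symm := X.Q.symm
  f₁ := X.Q.f₁
  f₂ := X.Q.f₂
  Δ := X.Q.Δ
  f₁_f₁ := X.Q.f₁_f₁
  f₂_f₂ := X.Q.f₂_f₂
  f₁_f₂ := X.Q.f₁_f₂
  Δ_f₁ := X.Q.Δ_f₁
  Δ_f₂ := X.Q.Δ_f₂
  Δ_Δ := X.Q.Δ_Δ
  index := X.Q.index
  Irr := X.R.Irr
  degrees := X.R.degrees
  fibre₁ := X.R.fibre₁
  fibre₂ := X.R.fibre₂
  adjunction := X.R.adjunction

theorem CurveSq.exists_ample {g : ℕ} (X : CurveSq g) (hg : 2 ≤ g) :
    ∃ D : X.P.NS, X.IsAmple D ∧ ∃ r : ℚ, 0 < r ∧ X.P.dot (X.G r) D < 0 :=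
  X.old.exists_ample hg

end

end Pool.Agent.Q60.GS
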